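import Mathlib
import Pool.Agent.Helper112.MultLS
import Pool.Agent.Y856.Hy.Stm

/-!
# Large sieve for a set contained in an arithmetic progression, large conductors
-/

set_option autoImplicit false

namespace Pool.Agent.Y811.Hy

open Finset Pool.Agent.Helper112 Pool.Agent.Y856.Hy

/-- partial summation -/
lemma partial_sum (G : ℕ → ℝ) (M c : ℝ) (K : ℕ) (hK : 1 ≤ K) (hc : 0 ≤ c)
    (hS : ∀ F : ℕ, K ≤ F → ∑ r ∈ Ioc K F, G r ≤ c * (M + (F : ℝ) ^ 2)) (F : ℕ) (hF : K ≤ F) :
    ∑ r ∈ Ioc K F, G r / r ≤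
      (∑ r ∈ Ioc K F, G r) / F + c * (M * (1 / K - 1 / F) + (F - K)) := by
  induction F, hF using Nat.le_induction with
  | base => simp
  | succ F hF ih =>
    rw [Finset.sum_Ioc_succ_top hF, Finset.sum_Ioc_succ_top hF]
    have hS' := hS F hF
    set S := ∑ r ∈ Ioc K F, G r with hSdef
    have hF0 : (0 : ℝ) < F := by exact_mod_cast (by omega : 0 < F)
    have hF1 : (0 : ℝ) < (F : ℝ) + 1 := by linarith
    push_cast
    have h1 : S / F - S / ((F : ℝ) + 1) = S / ((F : ℝ) * (F + 1)) := by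
      field_simp
      ring
    have h2 : S / ((F : ℝ) * (F + 1)) ≤ c * (M + (F : ℝ) ^ 2) / ((F : ℝ) * (F + 1)) :=
      div_le_div_of_nonneg_right hS' (by positivity)
    have h3 : c * (M + (F : ℝ) ^ 2) / ((F : ℝ) * (F + 1)) ≤
        c * (M * (1 / F - 1 / ((F : ℝ) + 1)) + 1) := by
      rw [mul_div_assoc]
      apply mul_le_mul_of_nonneg_left _ hc
      have : (M + (F : ℝ) ^ 2) / ((F : ℝ) * (F + 1)) =
          M * (1 / F - 1 / ((F : ℝ) + 1)) + F / (F + 1) := by
        field_simp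
        ring
      rw [this]
      have : (F : ℝ) / (F + 1) ≤ 1 := by
        rw [div_le_one hF1]; linarith
      linarith
    have h4 : (S + G (F + 1)) / ((F : ℝ) + 1) = S / ((F : ℝ) + 1) + G (F + 1) / ((F : ℝ) + 1) := by
      rw [add_div]
    rw [h4]
    have h5 : c * (M * (1 / (K : ℝ) - 1 / ((F : ℝ) + 1)) + ((F : ℝ) + 1 - K)) =
        c * (M * (1 / K - 1 / F) + (F - K)) + c * (M * (1 / F - 1 / ((F : ℝ) + 1)) + 1) := by
      ring
    rw [h5]
    linarith

/-- a sum over a finite set contained in a progression, as a sum over an interval -/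
lemma sum_prog {E : Type*} [AddCommMonoid E] (N d a : ℕ) (hd : 1 ≤ d) (P : Finset ℕ)
    (hP : ∀ n ∈ P, 1 ≤ n ∧ n ≤ N ∧ n ≡ a [MOD d]) (f : ℕ → E) :
    ∑ n ∈ P, f n = ∑ m ∈ Icc 1 (N / d + 1),
      if a % d + d * (m - 1) ∈ P then f (a % d + d * (m - 1)) else 0 := by
  rw [← Finset.sum_filter]
  have hn : ∀ n ∈ P, a % d + d * (n / d + 1 - 1) = n := by
    intro n hn
    have h := (hP n hn).2.2
    have : n % d = a % d := h
    rw [Nat.add_sub_cancel, ← this]
    exact Nat.mod_add_div n d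
  refine Finset.sum_bij (fun n _ => n / d + 1) ?_ ?_ ?_ ?_
  · intro n hnP
    rw [mem_filter, mem_Icc, hn n hnP]
    exact ⟨⟨Nat.le_add_left 1 _, Nat.add_le_add_right (Nat.div_le_div_right (hP n hnP).2.1) 1⟩, hnP⟩
  · intro n hnP n' hnP' h
    have h1 := hn n hnP
    have h2 := hn n' hnP'
    rw [h] at h1
    rw [← h1, h2]
  · intro m hm
    rw [mem_filter, mem_Icc] at hm
    refine ⟨_, hm.2, ?_⟩
    have hlt : a % d < d := Nat.mod_lt _ hd
    rw [Nat.add_mul_div_left _ _ hd, Nat.div_eq_of_lt hlt]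
    omega
  · intro n hnP
    rw [hn n hnP]

open Classical in
/-- the value of `X P r` bounded by a sum over Farey fractions -/
lemma X_bound (N d a : ℕ) (hd : 1 ≤ d) (P : Finset ℕ)
    (hP : ∀ n ∈ P, 1 ≤ n ∧ n ≤ N ∧ n ≡ a [MOD d]) (r : ℕ) (hr : 1 ≤ r) (hrd : r.Coprime d) :
    ((r : ℝ) / (Nat.totient r : ℝ)) * X P r ≤
      ∑ h ∈ (range r).filter (fun h => h.Coprime r),
        ‖∑ m ∈ Icc 1 (N / d + 1),
          (if a % d + d * (m - 1) ∈ P then (1 : ℂ) else 0) * ee (m * h / r)‖ ^ 2 := by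
  have : NeZero r := ⟨by omega⟩
  rw [← MLS.sum_units]
  have h1 := MLS.prim_bound r N (fun n => if n ∈ P then (1 : ℂ) else 0)
  have hsub : P ⊆ Icc 1 N := fun n hn => mem_Icc.mpr ⟨(hP n hn).1, (hP n hn).2.1⟩
  have h2 : ∀ g : ℕ → ℂ, ∑ n ∈ Icc 1 N, (if n ∈ P then (1 : ℂ) else 0) * g n = ∑ n ∈ P, g n := by
    intro g
    simp_rw [ite_mul, one_mul, zero_mul]
    rw [← Finset.sum_filter]
    congr 1
    ext n
    rw [mem_filter]
    exact ⟨fun h => h.2, fun h => ⟨hsub h, h⟩⟩
  have h3 : X P r = ∑ χ ∈ (univ : Finset (DirichletCharacter ℂ r)).filter (fun χ => χ.IsPrimitive),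
        ‖∑ n ∈ Icc 1 N, (if n ∈ P then (1 : ℂ) else 0) * χ (n : ZMod r)‖ ^ 2 := by
    unfold X
    refine Finset.sum_congr rfl fun χ _ => ?_
    rw [h2]
  rw [h3]
  refine le_trans h1 (le_of_eq ?_)
  have hu : ∀ h : (ZMod r)ˣ, ‖MLS.T r N (fun n => if n ∈ P then (1 : ℂ) else 0) h‖ =
      ‖MLS.T r (N / d + 1) (fun m => if a % d + d * (m - 1) ∈ P then (1 : ℂ) else 0)
        ((h * ZMod.unitOfCoprime d hrd.symm : (ZMod r)ˣ) : ZMod r)‖ := by
    intro h
    unfold MLS.T
    rw [h2, sum_prog N d a hd P hP]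
    have h4 : ∀ m ∈ Icc 1 (N / d + 1),
        (if a % d + d * (m - 1) ∈ P then
          (ZMod.stdAddChar ((h : ZMod r) * ((a % d + d * (m - 1) : ℕ) : ZMod r)) : ℂ) else 0) =
        ZMod.stdAddChar ((h : ZMod r) * (((a % d : ℕ) : ZMod r) - (d : ZMod r))) *
        ((if a % d + d * (m - 1) ∈ P then (1 : ℂ) else 0) *
          ZMod.stdAddChar (((h * ZMod.unitOfCoprime d hrd.symm : (ZMod r)ˣ) : ZMod r) *
            (m : ZMod r))) := by
      intro m hm
      rw [mem_Icc] at hm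
      split_ifs with hmem
      · rw [one_mul, ← AddChar.map_add_eq_mul]
        congr 1
        rw [Units.val_mul, ZMod.coe_unitOfCoprime]
        push_cast [Nat.cast_sub hm.1]
        ring
      · simp
    rw [Finset.sum_congr rfl h4, ← Finset.mul_sum, norm_mul, AddChar.norm_apply, one_mul]
  simp_rw [hu]
  exact Fintype.sum_equiv (Equiv.mulRight (ZMod.unitOfCoprime d hrd.symm)) _ _ (fun h => rfl)

open Classical in
theorem t : S_ls := by
  refine ⟨12, by norm_num, ?_⟩
  intro N d a K F hd hK P hP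
  rcases Nat.lt_or_ge F K with hFK | hFK
  · rw [Ioc_eq_empty (by omega), filter_empty, sum_empty]
    positivity
  set c : ℝ := 6 * P.card with hc
  set M : ℝ := (N : ℝ) / d + 1 with hM
  set G : ℕ → ℝ := fun r => if r.Coprime d then ((r : ℝ) / (Nat.totient r : ℝ)) * X P r else 0
    with hG
  have hX : ∀ r, 0 ≤ X P r := by
    intro r
    unfold X
    positivity
  have hG0 : ∀ r, 0 ≤ G r := by
    intro r
    simp only [hG]
    split_ifs
    · exact mul_nonneg (by positivity) (hX r)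
    · exact le_rfl
  have hS : ∀ F' : ℕ, K ≤ F' → ∑ r ∈ Ioc K F', G r ≤ c * (M + (F' : ℝ) ^ 2) := by
    intro F' _
    have h1 : ∑ r ∈ Ioc K F', G r ≤ ∑ r ∈ Icc 1 F', G r := by
      apply Finset.sum_le_sum_of_subset_of_nonneg
      · intro r hr
        rw [mem_Ioc] at hr
        rw [mem_Icc]
        omega
      · intro r _ _
        exact hG0 r
    refine le_trans h1 ?_
    have h2 : ∑ r ∈ Icc 1 F', G r ≤ ∑ r ∈ Icc 1 F',
        ∑ h ∈ (range r).filter (fun h => h.Coprime r),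
        ‖∑ m ∈ Icc 1 (N / d + 1),
          (if a % d + d * (m - 1) ∈ P then (1 : ℂ) else 0) * ee (m * h / r)‖ ^ 2 := by
      apply Finset.sum_le_sum
      intro r hr
      rw [mem_Icc] at hr
      simp only [hG]
      split_ifs with hrd
      · exact X_bound N d a hd P hP r hr.1 hrd
      · positivity
    refine le_trans h2 ?_
    refine le_trans (additive_large_sieve (N / d + 1) F' _) ?_
    have h3 : ∑ m ∈ Icc 1 (N / d + 1),
        ‖(if a % d + d * (m - 1) ∈ P then (1 : ℂ) else 0)‖ ^ 2 = P.card := by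
      have := sum_prog N d a hd P hP (fun _ => (1 : ℝ))
      rw [Finset.sum_const, nsmul_eq_mul, mul_one] at this
      rw [this]
      refine Finset.sum_congr rfl fun m _ => ?_
      split_ifs <;> simp
    rw [h3]
    have h4 : (((N / d + 1 : ℕ) : ℝ)) ≤ M := by
      rw [hM]
      push_cast
      have := @Nat.cast_div_le ℝ _ _ _ N d
      linarith
    have h5 : 6 * (((N / d + 1 : ℕ) : ℝ) + (F' : ℝ) ^ 2) * P.card ≤ 6 * (M + (F' : ℝ) ^ 2) * P.card := by
      apply mul_le_mul_of_nonneg_right _ (by positivity)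
      linarith
    refine le_trans h5 (le_of_eq ?_)
    rw [hc]
    ring
  have hmain := partial_sum G M c K hK (by positivity) hS F hFK
  have hL : ∑ r ∈ (Ioc K F).filter (fun r => r.Coprime d), (1 / (Nat.totient r : ℝ)) * X P r =
      ∑ r ∈ Ioc K F, G r / r := by
    rw [Finset.sum_filter]
    refine Finset.sum_congr rfl fun r hr => ?_
    rw [mem_Ioc] at hr
    have hr0 : (r : ℝ) ≠ 0 := by
      have : 0 < r := by omega
      positivity
    simp only [hG]
    split_ifs
    · field_simp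
    · simp
  rw [hL]
  refine le_trans hmain ?_
  have hF0 : (0 : ℝ) < F := by exact_mod_cast (by omega : 0 < F)
  have hK0 : (0 : ℝ) < K := by exact_mod_cast (by omega : 0 < K)
  have h6 : (∑ r ∈ Ioc K F, G r) / F ≤ c * (M / F + F) := by
    have h := div_le_div_of_nonneg_right (hS F hFK) hF0.le
    refine le_trans h (le_of_eq ?_)
    field_simp
  have hM0 : 0 ≤ M := by positivity
  have h7 : c * (M / F + F) + c * (M * (1 / K - 1 / F) + (F - K)) =
      c * (M / K + 2 * F - K) := by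
    ring
  have h8 : c * (M / K + 2 * F - K) ≤ c * (2 * (F + M / K)) := by
    apply mul_le_mul_of_nonneg_left _ (by positivity)
    have : 0 ≤ M / K := by positivity
    linarith
  calc _ ≤ c * (M / F + F) + c * (M * (1 / K - 1 / F) + (F - K)) := by linarith
    _ = c * (M / K + 2 * F - K) := h7
    _ ≤ c * (2 * (F + M / K)) := h8
    _ = 12 * ((F : ℝ) + M / K) * P.card := by rw [hc]; ring

end Pool.Agent.Y811.Hy
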